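import Mathlib
import Pool.Agent.H33.MaxT4

set_option autoImplicit false

open Pointwise

namespace Pool.Agent.Results.MP_e3b596_gt.MaxRegular

universe u

/-- Every Abelian group of singular cardinality carries a maximal regular translation invariant
`κ`-bounded topology. -/
theorem result (G : Type u) [AddCommGroup G] [Infinite G]
    (hs : (Cardinal.mk G).ord.cof < Cardinal.mk G) :
    ∃ τ : TopologicalSpace G,
      (∀ x : G, ¬ @IsOpen G τ {x}) ∧
      (∀ σ : TopologicalSpace G, (∀ U : Set G, @IsOpen G τ U → @IsOpen G σ U) → σ ≠ τ →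
        ∃ x : G, @IsOpen G σ {x}) ∧
      @T3Space G τ ∧
      (∀ g : G, @Continuous G G τ τ (fun x => g + x)) ∧
      ∀ U ∈ @nhds G τ 0, ∃ F : Set G, Cardinal.mk F < Cardinal.mk G ∧ F + U = Set.univ := by
  obtain ⟨τ, h1, h2, h⟩ := Pool.Agent.H33.MaxT4.final (Cardinal.aleph0_le_mk G) hs
  exact ⟨τ, h1, fun σ h3 h4 => h2 σ (lt_of_le_of_ne h3 h4), h⟩

end Pool.Agent.Results.MP_e3b596_gt.MaxRegular
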